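import Pool.Agent.Lib.MP_ac4964_an.Host

/-! Hosts of density character below the continuum. -/

set_option autoImplicit false

open Set Filter Topology MeasureTheory TopologicalSpace
open Pool.Agent.Lib.MP_ac4964_an

namespace Pool.Agent.FS.L1Dens

universe u

/-- the parameter `α` is a limit of other parameters, together with the embeddings -/
def Acc {Y : Type*} [NormedAddCommGroup Y] [NormedSpace ℝ Y]
    (T : Bits → (Clopens KT →₀ ℝ) →ₗ[ℝ] Y) (α : Bits) : Prop :=
  ∀ (F : Finset (Clopens KT)) (n m : ℕ), ∃ β, β ≠ α ∧ (∀ i, i < n → β i = α i) ∧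
    ∀ g ∈ F, ‖T β (Finsupp.single g 1) - T α (Finsupp.single g 1)‖ ≤ 1 / ((m : ℝ) + 1)

theorem hasL1_of_acc_sep {Y : Type*} [NormedAddCommGroup Y] [NormedSpace ℝ Y] [CompleteSpace Y]
    [SeparableSpace Y] (T : Bits → (Clopens KT →₀ ℝ) →ₗ[ℝ] Y)
    (hT1 : ∀ α v, ‖T α v‖ ≤ NA α v) (α : Bits) (lam : ℕ) (hα : ∀ v, NA α v ≤ lam * ‖T α v‖)
    (hacc : Acc T α) : HasL1 Y := by
  classical
  by_contra hY
  haveI : SecondCountableTopology Y := UniformSpace.secondCountable_of_separable Y
  obtain ⟨s, hs⟩ : ∃ s : ℕ, (lam : ℝ) * 100 < 2 ^ s :=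
    ((tendsto_pow_atTop_atTop_of_one_lt (by norm_num)).eventually_gt_atTop _).exists
  let sec : KS (qq s) → KT := fun e => Function.update (fun _ => 0) s e
  have hsec : Continuous sec := continuous_const.update s continuous_id
  have hsec2 : ∀ e, sec e s = e := fun e => by simp [sec]
  let ev : KS (qq s) → (Clopens KT →₀ ℝ) →ₗ[ℝ] ℝ := fun e =>
    (ContinuousMap.evalCLM ℝ (sec e)).toLinearMap.comp (Finsupp.linearCombination ℝ ind)
  obtain ⟨l, hl1, hl2, hl3⟩ := exists_measurable_lift (T α) ev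
    (fun v => (Finsupp.linearCombination ℝ ind v).continuous.comp hsec) lam (by positivity)
    (fun e v => (((Finsupp.linearCombination ℝ ind v).norm_coe_le_norm (sec e)).trans
      (norm_le_NN (lev := lev) hgen α v)).trans (hα v))
  have hβ : ∀ k : ℕ, ∃ β, β ≠ α ∧ (∀ i, i < k + 2 * 4 ^ s * 4 ^ s + 4 ^ s → β i = α i) ∧
      ∀ ρ z, ρ < 4 ^ s →
        ‖T β (Finsupp.single (pull s (Tst (4 ^ s) false ρ α k z (par0 _ (4 ^ s)))) 1) -
          T α (Finsupp.single (pull s (Tst (4 ^ s) false ρ α k z (par0 _ (4 ^ s)))) 1)‖ ≤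
          1 / (2 * (lam + 1)) := by
    intro k
    have hfin : (⋃ ρ ∈ Iio (4 ^ s), range fun z =>
        pull s (Tst (4 ^ s) false ρ α k z (par0 _ (4 ^ s)))).Finite := by
      refine (finite_Iio _).biUnion fun ρ _ => IsLocallyConstant.range_finite ?_
      exact ((isLocallyConstant_Tst (4 ^ s) false ρ k (par0 _ (4 ^ s))).comp_continuous
        (f := fun z => (α, z)) (by fun_prop)).comp (pull s)
    obtain ⟨β, h2, h3, h4⟩ := hacc hfin.toFinset (k + 2 * 4 ^ s * 4 ^ s + 4 ^ s) (2 * lam + 1)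
    refine ⟨β, h2, h3, fun ρ z hρ => (h4 _ (hfin.mem_toFinset.2
      (mem_iUnion₂.2 ⟨ρ, hρ, z, rfl⟩))).trans (le_of_eq ?_)⟩
    push_cast
    ring
  choose β hβ1 hβ2 hβ3 using hβ
  refine core (q := qq s) (r := 4 ^ s) (le_qq s) (by positivity) hY α β hβ1 hβ2
    (fun k S => T (β k) (Finsupp.single (pull s S) 1)) (2 ^ s) (1 / 2 ^ s) (by positivity)
    (by positivity) ?_ l hl1 lam (by positivity) hl2 ?_ ?_
  · intro k ι t c b ρ z φ M hρ hM hsup
    let θ : ι → Idx := fun i =>
      if h : ρ i < 4 ^ s then Sum.inr ⟨s, b i, ⟨ρ i, h⟩, k, z i, φ i⟩ else Sum.inl ⊥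
    have hθ : ∀ i ∈ t, pull s (Tst (4 ^ s) (b i) (ρ i) (β k) k (z i) (φ i)) = Cl (β k) (θ i) :=
      fun i hi => by rw [pull_Tst s _ _ (hρ i hi)]; simp [θ, hρ i hi]
    have hrep := Rep.sum (F := fun α θ => ind (Cl α θ)) (lev := lev) (j := s + 1) t
      (fun i => c i • fun α => ind (Cl α (θ i))) (fun i => |c i| * 1)
      (fun i hi => Rep.smul _ _ _ (Rep.base _ (by simp [θ, hρ i hi, lev])))
    have h1 := NN_le_of_rep hgen (a := β k) (v := ∑ i ∈ t, c i • Finsupp.single
      (pull s (Tst (4 ^ s) (b i) (ρ i) (β k) k (z i) (φ i))) 1) hrep (by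
        simp only [map_sum, map_smul, Finsupp.linearCombination_single, one_smul,
          Finset.sum_apply, Pi.smul_apply]
        exact Finset.sum_congr rfl fun i hi => by rw [hθ i hi])
    have h2 := hT1 (β k) (∑ i ∈ t, c i • Finsupp.single
      (pull s (Tst (4 ^ s) (b i) (ρ i) (β k) k (z i) (φ i))) 1)
    simp only [map_sum, map_smul] at h2
    refine h2.trans (h1.trans (add_le_add (mul_le_mul_of_nonneg_left ?_ (by positivity))
      (le_of_eq ?_)))
    · rw [ContinuousMap.norm_le _ hM]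
      intro e
      simp only [Finset.sum_apply, Pi.smul_apply, ContinuousMap.coe_sum, ContinuousMap.coe_smul,
        smul_eq_mul, ind_apply, Real.norm_eq_abs]
      convert hsup (e s) using 3 with i hi
      simp only [θ, hρ i hi, dif_pos, Cl]
      rfl
    · simp only [mul_one]; ring
  · intro k ρ e hρ
    have e1 : Tst (4 ^ s) false ρ (β k) k (Gam (4 ^ s) false ρ α e) (par0 _ (4 ^ s)) =
        Tst (4 ^ s) false ρ α k (Gam (4 ^ s) false ρ α e) (par0 _ (4 ^ s)) := rfl
    rw [e1]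
    have h1 := hl3 e (Finsupp.single
      (pull s (Tst (4 ^ s) false ρ α k (Gam (4 ^ s) false ρ α e) (par0 _ (4 ^ s)))) 1)
    have h2 : ev e (Finsupp.single
        (pull s (Tst (4 ^ s) false ρ α k (Gam (4 ^ s) false ρ α e) (par0 _ (4 ^ s)))) 1) = 1 := by
      simp only [ev, LinearMap.comp_apply, Finsupp.linearCombination_single, one_smul,
        ContinuousLinearMap.coe_coe, ContinuousMap.evalCLM_apply, ind_apply]
      rw [if_pos]
      rw [pull_Tst s _ _ hρ]
      show sec e s ∈ Tst _ _ _ _ _ _ _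
      rw [hsec2]
      simp only [Tst, Cnd, Cyl, pset, par0, mem_ofPred_eq, sub_self, Pi.zero_apply, Prod.snd_zero,
        Prod.fst_zero, map_zero, add_zero, implies_true, true_and]
      exact ⟨fun _ _ _ _ => ⟨rfl, rfl⟩, zero_mem_vset_RU le_rfl⟩
    have h3 := (hl2 e _).trans (mul_le_mul_of_nonneg_left
      (hβ3 k ρ (Gam (4 ^ s) false ρ α e) hρ) (by positivity))
    rw [map_sub, h1, h2, abs_le] at h3
    have h4 : (lam : ℝ) * (1 / (2 * (lam + 1))) ≤ 1 / 2 := by
      rw [mul_one_div, div_le_div_iff₀ (by positivity) (by positivity)]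
      linarith
    linarith [h3.1]
  · have h1 : ((4 ^ s : ℕ) : ℝ) = 2 ^ s * 2 ^ s := by
      push_cast
      rw [← mul_pow]; norm_num
    rw [h1]
    have h2 : (0 : ℝ) < 2 ^ s := by positivity
    have : (lam : ℝ) * (2 ^ s / (2 ^ s * 2 ^ s) + 4 * (1 / 2 ^ s)) = lam * 5 / 2 ^ s := by
      field_simp
      ring
    rw [this, div_le_iff₀ h2]
    linarith

theorem hasL1_of_acc {Y : Type*} [NormedAddCommGroup Y] [NormedSpace ℝ Y] [CompleteSpace Y]
    (T : Bits → (Clopens KT →₀ ℝ) →ₗ[ℝ] Y)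
    (hT1 : ∀ α v, ‖T α v‖ ≤ NA α v) (α : Bits) (lam : ℕ) (hα : ∀ v, NA α v ≤ lam * ‖T α v‖)
    (hacc : Acc T α) : HasL1 Y := by
  classical
  choose β h1 h2 h3 using hacc
  let B : Set Bits := insert α (range fun p : Finset (Clopens KT) × ℕ × ℕ => β p.1 p.2.1 p.2.2)
  have hB : B.Countable := (countable_range _).insert α
  let D : Set Y := ⋃ b ∈ B, range fun g => T b (Finsupp.single g 1)
  have hD : D.Countable := hB.biUnion fun b _ => countable_range _
  let Z : Submodule ℝ Y := (Submodule.span ℝ D).topologicalClosure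
  have hZ : IsSeparable (Z : Set Y) := hD.isSeparable.span.closure
  have : SeparableSpace Z := hZ.separableSpace
  have : CompleteSpace Z := (Submodule.isClosed_topologicalClosure _).completeSpace_coe
  have key : ∀ b ∈ B, ∀ v, T b v ∈ Z := by
    intro b hb v
    induction v using Finsupp.induction_linear with
    | zero => simp
    | add f g hf hg => rw [map_add]; exact Z.add_mem hf hg
    | single g a =>
      rw [← mul_one a, ← smul_eq_mul, ← Finsupp.smul_single, map_smul]
      exact Z.smul_mem _ (Submodule.le_topologicalClosure _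
        (Submodule.subset_span (mem_iUnion₂.2 ⟨b, hb, g, rfl⟩)))
  obtain ⟨T', hT', hT0⟩ : ∃ T' : Bits → (Clopens KT →₀ ℝ) →ₗ[ℝ] Z,
      (∀ b ∈ B, ∀ v, (T' b v : Y) = T b v) ∧ ∀ b, b ∉ B → T' b = 0 :=
    ⟨fun b => if h : b ∈ B then (T b).codRestrict Z (key b h) else 0,
      fun b hb v => by simp only [dif_pos hb]; rfl, fun b hb => dif_neg hb⟩
  have hαB : α ∈ B := mem_insert _ _
  obtain ⟨U, c, hc, hU⟩ := hasL1_of_acc_sep (Y := Z) T' (fun b v => by
      by_cases hb : b ∈ B
      · rw [← Submodule.norm_coe, hT' b hb]; exact hT1 b v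
      · rw [hT0 b hb, LinearMap.zero_apply, norm_zero]; exact apply_nonneg _ _) α lam
    (fun v => by rw [← Submodule.norm_coe, hT' α hαB]; exact hα v) fun F n m =>
      ⟨β F n m, h1 F n m, h2 F n m, fun g hg => by
        rw [← Submodule.norm_coe, Submodule.coe_sub, hT' α hαB,
          hT' _ (mem_insert_of_mem _ ⟨(F, n, m), rfl⟩)]
        exact h3 F n m g hg⟩
  exact ⟨Z.subtypeL.comp U, c, hc, hU⟩

open Cardinal in
theorem exists_acc {Y : Type u} [NormedAddCommGroup Y] [NormedSpace ℝ Y] {D : Set Y}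
    (hD : Dense D) (hc : #D < 𝔠) (T : Bits → (Clopens KT →₀ ℝ) →ₗ[ℝ] Y) : ∃ α, Acc T α := by
  classical
  by_contra hn
  simp only [Acc, not_exists, not_forall, not_and] at hn
  choose F n m h using hn
  have hd : ∀ (α : Bits) (g : Clopens KT), ∃ d : D,
      ‖T α (Finsupp.single g 1) - d‖ < 1 / ((m α : ℝ) + 1) / 2 := by
    intro α g
    obtain ⟨d, h1, h2⟩ := hD.exists_dist_lt (T α (Finsupp.single g 1))
      (ε := 1 / ((m α : ℝ) + 1) / 2) (by positivity)
    exact ⟨⟨d, h1⟩, by rwa [dist_eq_norm] at h2⟩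
  choose d hd using hd
  let code : Bits → (Finset (Clopens KT) × ℕ × ℕ × List (ZMod 2)) × List D := fun α =>
    ((F α, n α, m α, (List.range (n α)).map α), (F α).toList.map (d α))
  have hinj : Function.Injective code := by
    intro α β hab
    by_contra hne
    simp only [code, Prod.mk.injEq] at hab
    obtain ⟨⟨e1, e2, e3, e4⟩, e5⟩ := hab
    rw [← e2, List.map_inj_left] at e4
    rw [← e1, List.map_inj_left] at e5
    obtain ⟨g, hg, hlt⟩ := h α β (Ne.symm hne) fun i hi => (e4 i (List.mem_range.2 hi)).symm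
    refine hlt ?_
    have a1 := hd α g
    have a2 := hd β g
    rw [← e3, ← e5 g (Finset.mem_toList.2 hg)] at a2
    have a3 := norm_sub_le_norm_sub_add_norm_sub (T β (Finsupp.single g 1)) (d α g : Y)
      (T α (Finsupp.single g 1))
    rw [norm_sub_rev (d α g : Y)] at a3
    linarith
  have h1 := Cardinal.lift_mk_le_lift_mk_of_injective hinj
  have h2 : #Bits = 𝔠 := by
    change #(ℕ → ZMod 2) = 𝔠
    simp
  rw [h2, lift_continuum, mk_prod, lift_uzero, lift_uzero] at h1
  refine absurd h1 (not_le.2 (mul_lt_of_lt aleph0_le_continuum ?_ ?_))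
  · exact (lift_le_aleph0.2 mk_le_aleph0).trans_lt aleph0_lt_continuum
  · exact (mk_list_le_max _).trans_lt (max_lt aleph0_lt_continuum hc)

end Pool.Agent.FS.L1Dens
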